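import Pool.Agent.Helper75.Slab.Goals

set_option autoImplicit false

open Set

namespace Pool.Agent.Helper32.Slab.DET

open Pool.Agent.Helper75.Flow

/-- expansion of a linear map on the basis -/
theorem expand (L : E →L[ℝ] E) (v : E) (i : Fin 3) :
    L v i = L (Pi.single 0 1) i * v 0 + L (Pi.single 1 1) i * v 1 + L (Pi.single 2 1) i * v 2 := by
  have hv : v = v 0 • (Pi.single 0 1 : E) + v 1 • (Pi.single 1 1 : E) + v 2 • (Pi.single 2 1 : E) := by
    funext k
    fin_cases k <;> simp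
  conv_lhs => rw [hv]
  simp only [map_add, map_smul, Pi.add_apply, Pi.smul_apply, smul_eq_mul]
  ring

theorem det_eq (L : E →L[ℝ] E) :
    L.det = L (Pi.single 0 1) 0 * L (Pi.single 1 1) 1 * L (Pi.single 2 1) 2
      - L (Pi.single 0 1) 0 * L (Pi.single 2 1) 1 * L (Pi.single 1 1) 2
      - L (Pi.single 1 1) 0 * L (Pi.single 0 1) 1 * L (Pi.single 2 1) 2
      + L (Pi.single 1 1) 0 * L (Pi.single 2 1) 1 * L (Pi.single 0 1) 2
      + L (Pi.single 2 1) 0 * L (Pi.single 0 1) 1 * L (Pi.single 1 1) 2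
      - L (Pi.single 2 1) 0 * L (Pi.single 1 1) 1 * L (Pi.single 0 1) 2 := by
  have h1 : L.det = (LinearMap.toMatrix' (L : E →ₗ[ℝ] E)).det := by
    rw [LinearMap.det_toMatrix']
  have h2 : ∀ i j : Fin 3, LinearMap.toMatrix' (L : E →ₗ[ℝ] E) i j = L (Pi.single j 1) i := by
    intro i j
    rw [LinearMap.toMatrix'_apply]
    rfl
  rw [h1, Matrix.det_fin_three]
  simp only [h2]

theorem thm : G_DET := by
  intro t A J ht _ hJ0 hJ htr s hs
  have hm : ∀ s ∈ Icc 0 t, ∀ i j : Fin 3, HasDerivWithinAt (fun τ => J τ (Pi.single j 1) i)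
      (A s (Pi.single 0 1) i * J s (Pi.single j 1) 0 + A s (Pi.single 1 1) i * J s (Pi.single j 1) 1
        + A s (Pi.single 2 1) i * J s (Pi.single j 1) 2) (Icc 0 t) s := by
    intro s hs i j
    have h1 := (hJ s hs).clm_apply (hasDerivWithinAt_const s (Icc 0 t) (Pi.single j 1 : E))
    have h2 := (hasDerivWithinAt_pi.1 h1) i
    simp only [map_zero, add_zero, ContinuousLinearMap.comp_apply] at h2
    rw [← expand (A s) (J s (Pi.single j 1)) i]
    exact h2
  have hD : ∀ s ∈ Icc 0 t, HasDerivWithinAt (fun τ => (J τ).det) 0 (Icc 0 t) s := by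
    intro s hs
    have h := (((((((hm s hs 0 0).mul (hm s hs 1 1)).mul (hm s hs 2 2)).sub
      (((hm s hs 0 0).mul (hm s hs 1 2)).mul (hm s hs 2 1))).sub
      (((hm s hs 0 1).mul (hm s hs 1 0)).mul (hm s hs 2 2))).add
      (((hm s hs 0 1).mul (hm s hs 1 2)).mul (hm s hs 2 0))).add
      (((hm s hs 0 2).mul (hm s hs 1 0)).mul (hm s hs 2 1))).sub
      (((hm s hs 0 2).mul (hm s hs 1 1)).mul (hm s hs 2 0))
    have htr' := htr s hs
    rw [Fin.sum_univ_three] at htr'
    have h00 : A s (Pi.single 0 1) 0 = - A s (Pi.single 1 1) 1 - A s (Pi.single 2 1) 2 := by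
      linarith
    rw [h00] at h
    refine HasDerivWithinAt.congr_deriv (f' := _) (h.congr_of_eventuallyEq ?_ ?_) ?_
    · exact Filter.Eventually.of_forall fun τ => by simpa using det_eq (J τ)
    · simpa using det_eq (J s)
    · simp only [Pi.mul_apply]
      ring
  have hdiff : DifferentiableOn ℝ (fun τ => (J τ).det) (Icc 0 t) :=
    fun s hs => (hD s hs).differentiableWithinAt
  have hzero : ∀ x ∈ Ico 0 t, derivWithin (fun τ => (J τ).det) (Icc 0 t) x = 0 := by
    intro x hx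
    have h0t : (0 : ℝ) < t := lt_of_le_of_lt hx.1 hx.2
    have hx' : x ∈ Icc 0 t := ⟨hx.1, hx.2.le⟩
    exact (hD x hx').derivWithin (uniqueDiffOn_Icc h0t x hx')
  have hc := constant_of_derivWithin_zero hdiff hzero s hs
  rw [hc, hJ0]
  exact LinearMap.det_id

end Pool.Agent.Helper32.Slab.DET
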